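import Pool.Agent.U190.GS.Cor
import Pool.Agent.R908.MainA

/-!
# The conjecture B and isotropic subspaces stable under correspondences and symmetries
-/

set_option autoImplicit false

open CategoryTheory AlgebraicGeometry

universe u v

namespace Pool.Agent.U190.GS

open Pool.Agent.H914 Pool.Agent.H914.VarClass Pool.Agent.H914.VarClass.Obj
  Pool.Agent.H914.WeilCohomology Pool.Agent.TH133.PW Pool.Agent.R908 Pool.Agent.H281R3.HT

variable {k : Type u} [Field k] {𝒱 : VarClass k} {ops : CycleOps 𝒱}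
  {W : WeilCohomology.{u, v} ops} {X Y : 𝒱.Obj}

/-- The graded subspace defined by a submodule. -/
noncomputable def fam (N : Submodule (corrAlg W X) (W.H X)) (j : ℕ) : Submodule W.K (W.H X) :=
  N.restrictScalars W.K ⊓ W.gr X j

lemma mem_fam {N : Submodule (corrAlg W X) (W.H X)} {j : ℕ} {x : W.H X} :
    x ∈ fam N j ↔ x ∈ N ∧ x ∈ W.gr X j := Iff.rfl

lemma kop_smul {N : Submodule (corrAlg W X) (W.H X)} {d : ℤ} {φ : Module.End W.K (W.H X)}
    (hφ : φ ∈ KOp W X X d) {x : W.H X} (hx : x ∈ N) : φ x ∈ N :=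
  N.smul_mem (⟨φ, kop_mem hφ⟩ : corrAlg W X) hx

lemma fam_isStable (N : Submodule (corrAlg W X) (W.H X)) : IsStable W X (fam N) where
  le := fun i => inf_le_right
  stable := by
    rintro p i j hij _ ⟨z, hz, rfl⟩ x hx
    have hφ : W.corr (W.cl (X.prod X) z) ∈ KOp W X X ((p : ℤ) - X.dim) :=
      KOp.gen (p := p) (by ring) hz
    refine ⟨kop_smul hφ hx.1, ?_⟩
    have h1 := KOp.isHom hφ i x (by rw [grZ_natCast]; exact hx.2)
    rwa [show (i : ℤ) + 2 * ((p : ℤ) - X.dim) = j by omega, grZ_natCast] at h1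

lemma hlon_of_ineq {D : X.Cycles} (hD : X.IsCyc 1 D) (hHL : HardLefschetz W X D)
    {N : Submodule (corrAlg W X) (W.H X)} (h : UpperAtMostLower X.dim (fam N)) :
    HLon (proj (W.isInternal X)) X.dim (lefOp W hD : Module.End W.K (W.H X)) (N : Set (W.H X)) := by
  intro c hc y hy hyc
  have hyg : y ∈ W.gr X (X.dim + c) := by rw [← hyc]; exact proj_mem _ _ _
  have hN := fam_isStable N
  have hinj : ∀ a ∈ W.gr X (X.dim - c), W.cl X D ^ c * a = 0 → a = 0 := by
    intro a ha h0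
    apply (hHL (X.dim - c) (by omega)).1 a ha
    rw [show X.dim - (X.dim - c) = c by omega, LinearMap.pow_mulLeft]
    exact h0
  have h2 : (fam N (X.dim - c)).map (LinearMap.mulLeft W.K (W.cl X D ^ c)) ≤
      fam N (X.dim + c) := by
    rintro _ ⟨x, hx, rfl⟩
    exact hN.kop (by omega) (pow_cl_mem hD c) hx
  have h3 : (fam N (X.dim - c)).map (LinearMap.mulLeft W.K (W.cl X D ^ c)) =
      fam N (X.dim + c) := by
    apply Submodule.eq_of_le_of_finrank_le h2
    rw [finrank_map_injOn _ _ (fun x hx h0 => hinj x (hN.le _ hx) h0)]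
    exact h c hc
  have hy' : y ∈ fam N (X.dim + c) := ⟨hy, hyg⟩
  rw [← h3] at hy'
  obtain ⟨x, hx, hxy⟩ := hy'
  refine ⟨x, hx.1, proj_same _ hx.2, ?_⟩
  change ((LinearMap.mulLeft W.K (W.cl X D)) ^ c) x = y
  rw [LinearMap.pow_mulLeft]
  exact hxy

/-- The submodule defined by a stable graded subspace. -/
noncomputable def unfam {N : ℕ → Submodule W.K (W.H X)} (hN : IsStable W X N) :
    Submodule (corrAlg W X) (W.H X) where
  carrier := {x | ∀ j, proj (W.isInternal X) j x ∈ N j}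
  add_mem' := fun hx hy j => by rw [map_add]; exact Submodule.add_mem _ (hx j) (hy j)
  zero_mem' := fun j => by rw [map_zero]; exact Submodule.zero_mem _
  smul_mem' := fun a x hx => by
    refine corrAlg_ind (P := fun φ => ∀ j, proj (W.isInternal X) j (φ x) ∈ N j) a.2 ?_ ?_ ?_
    · intro d φ hφ j
      rw [eq_sum_proj x, map_sum, map_sum]
      refine Submodule.sum_mem _ fun i _ => ?_
      have h1 := KOp.isHom hφ i (proj (W.isInternal X) i x)
        (by rw [grZ_natCast]; exact proj_mem _ _ _)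
      by_cases hi : 0 ≤ (i : ℤ) + 2 * d
      · obtain ⟨l, hl⟩ := Int.eq_ofNat_of_zero_le hi
        rw [hl, grZ_natCast] at h1
        by_cases hjl : l = j
        · subst hjl
          rw [proj_same _ h1]
          exact hN.kop hl.symm hφ (hx i)
        · rw [proj_ne _ h1 hjl]
          exact Submodule.zero_mem _
      · rw [grZ_of_neg (by omega)] at h1
        rw [(Submodule.mem_bot _).1 h1, map_zero]
        exact Submodule.zero_mem _
    · intro j
      rw [LinearMap.zero_apply, map_zero]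
      exact Submodule.zero_mem _
    · intro y z hy hz j
      rw [LinearMap.add_apply, map_add]
      exact Submodule.add_mem _ (hy j) (hz j)

lemma mem_unfam {N : ℕ → Submodule W.K (W.H X)} (hN : IsStable W X N) {x : W.H X} :
    x ∈ unfam hN ↔ ∀ j, proj (W.isInternal X) j x ∈ N j := Iff.rfl

theorem lefschetzOnStable (𝒢 : Set (Symmetry W)) {D : X.Cycles} (hD : X.IsCyc 1 D)
    (hHL : HardLefschetz W X D) (H : InvariantInequality 𝒢 X) : LefschetzOnStable W X D := by
  intro N hN c hc y hy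
  have hyg : y ∈ W.gr X (X.dim + c) := hN.le _ hy
  have S := setting 𝒢 hD hHL
  have key := S.hl_all (fun M hM hiso => by
    apply hlon_of_ineq hD hHL
    apply H _ (fam_isStable M)
    · intro T hT i x hx
      refine ⟨hM _ ⟨T, Or.inl hT, Or.inl rfl⟩ x hx.1, T.gr.2 hx.2⟩
    · intro i j x hx y hy
      exact hiso x hx.1 y hy.1) (unfam hN) (by
      intro j x hx i
      by_cases hij : j = i
      · subst hij
        rw [proj_same _ (proj_mem _ _ _)]
        exact hx j
      · rw [proj_ne _ (proj_mem _ _ _) hij]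
        exact Submodule.zero_mem _)
  obtain ⟨x, hx, hxc, hxy⟩ := key c hc y (by
    intro j
    by_cases hj : X.dim + c = j
    · subst hj
      rw [proj_same _ hyg]
      exact hy
    · rw [proj_ne _ hyg hj]
      exact Submodule.zero_mem _) (proj_same _ hyg)
  refine ⟨x, ?_, hxy⟩
  have := hx (X.dim - c)
  rwa [hxc] at this

/-- **The conjecture B is detected by invariant isotropic subspaces.** -/
theorem symmetric_tfae (𝒢 : Set (Symmetry W)) {D : X.Cycles} (hD : X.IsCyc 1 D)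
    (hHL : HardLefschetz W X D) :
    [LefschetzB W X D, LefschetzOnStable W X D, InvariantInequality 𝒢 X].TFAE := by
  have h := lefschetzB_pointwise hD hHL
  tfae_have 1 ↔ 2 := h.out 0 3
  tfae_have 2 → 3 := by
    intro h2 N hN _ hiso
    have h5 : IsotropicInequality W X := (h.out 3 4).1 h2
    exact h5 N hN hiso
  tfae_have 3 → 2 := lefschetzOnStable 𝒢 hD hHL
  tfae_finish

variable {V Z : 𝒱.Obj}

/-- The graded subspace of `H(Z)` generated by the images of `N`. -/
def pushFam (W : WeilCohomology.{u, v} ops) (V Z : 𝒱.Obj) (N : ℕ → Submodule W.K (W.H V)) (j : ℕ) :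
    Submodule W.K (W.H Z) :=
  Submodule.span W.K {y | ∃ (d : ℤ) (i : ℕ), (j : ℤ) = i + 2 * d ∧ ∃ ψ ∈ KOp W V Z d,
    ∃ x ∈ N i, ψ x = y}

lemma pushFam_ind {N : ℕ → Submodule W.K (W.H V)} {j : ℕ} {P : W.H Z → Prop} {y : W.H Z}
    (hy : y ∈ pushFam W V Z N j)
    (h1 : ∀ (d : ℤ) (i : ℕ), (j : ℤ) = i + 2 * d → ∀ ψ ∈ KOp W V Z d, ∀ x ∈ N i, P (ψ x))
    (h0 : P 0) (h2 : ∀ y z, P y → P z → P (y + z)) (h3 : ∀ (c : W.K) y, P y → P (c • y)) :
    P y := by
  induction hy using Submodule.span_induction with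
  | mem y hy =>
    obtain ⟨d, i, hj, ψ, hψ, x, hx, rfl⟩ := hy
    exact h1 d i hj ψ hψ x hx
  | zero => exact h0
  | add y z _ _ hy hz => exact h2 y z hy hz
  | smul c y _ hy => exact h3 c y hy

lemma pushFam_gen {N : ℕ → Submodule W.K (W.H V)} {j : ℕ} {d : ℤ} {i : ℕ}
    (hj : (j : ℤ) = i + 2 * d) {ψ : W.H V →ₗ[W.K] W.H Z} (hψ : ψ ∈ KOp W V Z d) {x : W.H V}
    (hx : x ∈ N i) : ψ x ∈ pushFam W V Z N j :=
  Submodule.subset_span ⟨d, i, hj, ψ, hψ, x, hx, rfl⟩

lemma pushFam_isStable {N : ℕ → Submodule W.K (W.H V)} (hN : ∀ i, N i ≤ W.gr V i) :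
    IsStable W Z (pushFam W V Z N) where
  le := fun j y hy => by
    refine pushFam_ind (P := fun y => y ∈ W.gr Z j) hy ?_ (Submodule.zero_mem _)
      (fun _ _ => Submodule.add_mem _) (fun c _ => Submodule.smul_mem _ c)
    intro d i hj ψ hψ x hx
    have h1 := KOp.isHom hψ i x (by rw [grZ_natCast]; exact hN i hx)
    rwa [← hj, grZ_natCast] at h1
  stable := by
    rintro p j l hl _ ⟨z, hz, rfl⟩ y hy
    have hφ : W.corr (W.cl (Z.prod Z) z) ∈ KOp W Z Z ((p : ℤ) - Z.dim) :=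
      KOp.gen (p := p) (by ring) hz
    refine pushFam_ind (P := fun y => W.corr (W.cl (Z.prod Z) z) y ∈ pushFam W V Z N l) hy ?_
      (by rw [map_zero]; exact Submodule.zero_mem _)
      (fun _ _ h1 h2 => by rw [map_add]; exact Submodule.add_mem _ h1 h2)
      (fun c _ h => by rw [map_smul]; exact Submodule.smul_mem _ c h)
    intro d i hj ψ hψ x hx
    exact pushFam_gen (d := d + ((p : ℤ) - Z.dim)) (i := i) (by omega) (KOp.comp hφ hψ) hx

lemma pushFam_isInvariant {𝒢 : Set (Symmetry W)} {N : ℕ → Submodule W.K (W.H V)}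
    (hN : IsInvariant 𝒢 V N) : IsInvariant 𝒢 Z (pushFam W V Z N) := by
  intro S hS j y hy
  refine pushFam_ind (P := fun y => S.σ Z y ∈ pushFam W V Z N j) hy ?_
      (by rw [map_zero]; exact Submodule.zero_mem _)
      (fun _ _ h1 h2 => by rw [map_add]; exact Submodule.add_mem _ h1 h2)
      (fun c _ h => by rw [map_smul]; exact Submodule.smul_mem _ c h)
  intro d i hj ψ hψ x hx
  obtain ⟨ψ', hψ', h⟩ := sym_kop S hψ
  rw [h]
  exact pushFam_gen hj hψ' (hN S hS i x hx)

lemma kop_neg {d : ℤ} {i : ℕ} (hd : (i : ℤ) + 2 * d < 0) {ψ : W.H V →ₗ[W.K] W.H Z}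
    (hψ : ψ ∈ KOp W V Z d) {x : W.H V} (hx : x ∈ W.gr V i) : ψ x = 0 := by
  have h1 := KOp.isHom hψ i x (by rw [grZ_natCast]; exact hx)
  rwa [grZ_of_neg hd, Submodule.mem_bot] at h1

lemma pushFam_isIsotropic {N : ℕ → Submodule W.K (W.H V)} (hN : IsStable W V N)
    (hiso : IsIsotropicFor (W.tr V) N) : IsIsotropicFor (W.tr Z) (pushFam W V Z N) := by
  intro j j' y hy y' hy'
  refine pushFam_ind (P := fun y => W.tr Z (y * y') = 0) hy ?_ (by rw [zero_mul, map_zero])
    (fun _ _ h1 h2 => by rw [add_mul, map_add, h1, h2, add_zero])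
    (fun c _ h => by rw [smul_mul_assoc, map_smul, h, smul_zero])
  intro d i hj ψ hψ x hx
  obtain ⟨χ, hχ, hadj⟩ := KOp.exists_adjoint hψ
  rw [hadj]
  refine pushFam_ind (P := fun y' => W.tr V (x * χ y') = 0) hy' ?_
    (by rw [map_zero, mul_zero, map_zero])
    (fun _ _ h1 h2 => by rw [map_add, mul_add, map_add, h1, h2, add_zero])
    (fun c _ h => by rw [map_smul, mul_smul_comm, map_smul, h, smul_zero])
  intro d' i' hj' ψ' hψ' x' hx'
  have h1 : χ ∘ₗ ψ' ∈ KOp W V V (d' + (d + V.dim - Z.dim)) := KOp.comp hχ hψ'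
  by_cases h0 : 0 ≤ (i' : ℤ) + 2 * (d' + (d + V.dim - Z.dim))
  · obtain ⟨l, hl⟩ := Int.eq_ofNat_of_zero_le h0
    exact hiso i l x hx _ (hN.kop (φ := χ ∘ₗ ψ') hl.symm h1 hx')
  · have h2 : χ (ψ' x') = 0 := kop_neg (ψ := χ ∘ₗ ψ') (by omega) h1 (hN.le _ hx')
    rw [h2, mul_zero, map_zero]

/-- All correspondences to a variety without isotropic invariant subspaces kill the isotropic
invariant subspaces. -/
lemma kill {𝒢 : Set (Symmetry W)} (hZ : NoIsotropic 𝒢 Z) {N : ℕ → Submodule W.K (W.H V)}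
    (hN : IsStable W V N) (hinv : IsInvariant 𝒢 V N) (hiso : IsIsotropicFor (W.tr V) N)
    {d : ℤ} {ψ : W.H V →ₗ[W.K] W.H Z} (hψ : ψ ∈ KOp W V Z d) {i : ℕ} {x : W.H V}
    (hx : x ∈ N i) : ψ x = 0 := by
  by_cases h0 : 0 ≤ (i : ℤ) + 2 * d
  · obtain ⟨l, hl⟩ := Int.eq_ofNat_of_zero_le h0
    have h1 := hZ _ (pushFam_isStable hN.le) (pushFam_isInvariant hinv)
      (pushFam_isIsotropic hN hiso) l
    have h2 : ψ x ∈ pushFam W V Z N l :=
      pushFam_gen hl.symm hψ hx
    rwa [h1, Submodule.mem_bot] at h2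
  · exact kop_neg (by omega) hψ (hN.le _ hx)

/-- **The conjecture B for varieties whose cohomology below the middle degree is generated by
varieties without isotropic invariant subspaces.** -/
theorem lefschetzB_of_generated (𝒢 : Set (Symmetry W)) {𝒵 : Set 𝒱.Obj}
    (h𝒵 : ∀ Z ∈ 𝒵, NoIsotropic 𝒢 Z) {D : V.Cycles} (hD : V.IsCyc 1 D)
    (hHL : HardLefschetz W V D) (hgen : GeneratedBelow W 𝒵 V) : LefschetzB W V D := by
  refine ((symmetric_tfae 𝒢 hD hHL).out 2 0).1 ?_
  intro N hN hinv hiso c hc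
  by_cases hc0 : c = 0
  · subst hc0
    exact le_of_eq (by rw [Nat.add_zero, Nat.sub_zero])
  have hbot : N (V.dim + c) = ⊥ := by
    rw [Submodule.eq_bot_iff]
    intro y hy
    apply nondeg_right
    intro x
    refine gr_induction (W.isInternal V) (p := fun x => W.tr V (x * y) = 0) ?_ ?_ x
    · intro i x hx
      by_cases hi : i = V.dim - c
      · have h1 : x ∈ Submodule.span W.K {x | ∃ Z ∈ 𝒵, ∃ (p : ℕ) (z : (Z.prod V).Cycles),
            (Z.prod V).IsCyc p z ∧ ∃ a : W.H Z, W.corr (W.cl _ z) a = x} := hgen i (by omega) hx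
        refine Submodule.span_induction (p := fun x _ => W.tr V (x * y) = 0) ?_ ?_ ?_ ?_ h1
        · rintro x ⟨Z, hZ, p, z, hz, a, rfl⟩
          obtain ⟨ψ, hψ, hadj⟩ := KOp.exists_adjoint
            (KOp.gen (W := W) (d := (p : ℤ) - Z.dim) (p := p) (by ring) hz)
          rw [hadj, kill (h𝒵 Z hZ) hN hinv hiso hψ hy, mul_zero, map_zero]
        · rw [zero_mul, map_zero]
        · intro x x' _ _ h1 h2
          rw [add_mul, map_add, h1, h2, add_zero]
        · intro c x _ h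
          rw [smul_mul_assoc, map_smul, h, smul_zero]
      · exact W.tr_eq_zero (W.mul_mem hx (hN.le _ hy)) (by omega)
    · intro a b ha hb
      rw [add_mul, map_add, ha, hb, add_zero]
  rw [hbot, finrank_bot]
  exact Nat.zero_le _

/-- Stable isotropic graded subspaces are transcendental. -/
lemma stable_transcendental {N : ℕ → Submodule W.K (W.H Z)} (hN : IsStable W Z N)
    (hiso : IsIsotropicFor (W.tr Z) N) (i : ℕ) : N i ≤ transcendental W Z := by
  intro x hx
  rw [transcendental, orthCompl, Submodule.mem_iInf]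
  intro c
  rw [Submodule.mem_iInf]
  intro hc
  obtain ⟨j, z, hz, rfl⟩ := Set.mem_iUnion.1 hc
  change W.tr Z (x * W.cl Z z) = 0
  by_contra hne
  have hcomm : W.tr Z (W.cl Z z * x) = W.tr Z (x * W.cl Z z) := by
    rw [W.even_comm (W.cl_mem hz)]
  have hi : i + 2 * j = 2 * Z.dim := by
    by_contra h
    exact hne (W.tr_eq_zero (W.mul_mem (hN.le _ hx) (W.cl_mem hz)) h)
  -- the unit belongs to `N`
  have h1 : (1 : W.H Z) ∈ N 0 := by
    have hφ : W.corr (W.cl (Z.prod Z) (ops.pull (fst Z Z) z)) ∈ KOp W Z Z ((j : ℤ) - Z.dim) :=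
      KOp.gen (p := j) (by ring) (ops.pull_mem _ hz)
    have h2 := hN.kop (i := i) (j := 0) (by push_cast; omega) hφ hx
    have h3 : W.corr (W.cl (Z.prod Z) (ops.pull (fst Z Z) z)) x =
        W.tr Z (x * W.cl Z z) • (1 : W.H Z) := by
      rw [corr_apply, W.cl_pull, ← map_mul, W.push_snd', hcomm]
    rw [h3] at h2
    have h4 := Submodule.smul_mem (N 0) (W.tr Z (x * W.cl Z z))⁻¹ h2
    rwa [smul_smul, inv_mul_cancel₀ hne, one_smul] at h4
  have h5 : W.cl Z z ∈ N (2 * j) := by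
    have hφ : LinearMap.mulLeft W.K (W.cl Z z) ∈ KOp W Z Z j :=
      KOp.ofRop ⟨_, Realized.mulLeft hz, rfl⟩
    have h2 := hN.kop (i := 0) (j := 2 * j) (by push_cast; ring) hφ h1
    rwa [LinearMap.mulLeft_apply, mul_one] at h2
  exact hne (hiso i (2 * j) x hx _ h5)

lemma noIsotropic_of_anisotropic {𝒢 : Set (Symmetry W)} (h : Anisotropic 𝒢 Z) :
    NoIsotropic 𝒢 Z := by
  intro N hN hinv hiso i
  by_contra hne
  set U : Submodule W.K (W.H Z) := ⨆ i, N i with hU
  have hUT : U ≤ transcendental W Z := iSup_le fun i => stable_transcendental hN hiso i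
  have hUne : U ≠ ⊥ := by
    intro h0
    apply hne
    rw [eq_bot_iff, ← h0]
    exact le_iSup N i
  have hUiso : ∀ x ∈ U, ∀ y ∈ U, W.tr Z (x * y) = 0 := by
    intro x hx y hy
    refine Submodule.iSup_induction N (motive := fun x => W.tr Z (x * y) = 0) hx ?_
      (by rw [zero_mul, map_zero]) (fun _ _ h1 h2 => by rw [add_mul, map_add, h1, h2, add_zero])
    intro i x hx
    refine Submodule.iSup_induction N (motive := fun y => W.tr Z (x * y) = 0) hy ?_
      (by rw [mul_zero, map_zero]) (fun _ _ h1 h2 => by rw [mul_add, map_add, h1, h2, add_zero])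
    intro j y hy
    exact hiso i j x hx y hy
  have hUst : ∀ (d : ℤ) (φ : W.H Z →ₗ[W.K] W.H Z), φ ∈ KOp W Z Z d → ∀ x ∈ U, φ x ∈ U := by
    intro d φ hφ x hx
    refine Submodule.iSup_induction N (motive := fun x => φ x ∈ U) hx ?_
      (by rw [map_zero]; exact Submodule.zero_mem _)
      (fun _ _ h1 h2 => by rw [map_add]; exact Submodule.add_mem _ h1 h2)
    intro i x hx
    by_cases h0 : 0 ≤ (i : ℤ) + 2 * d
    · obtain ⟨l, hl⟩ := Int.eq_ofNat_of_zero_le h0
      exact Submodule.mem_iSup_of_mem l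
        (hN.kop hl.symm hφ hx)
    · rw [kop_neg (by omega) hφ (hN.le _ hx)]
      exact Submodule.zero_mem _
  obtain ⟨θ, hθ, x, hx, y, hy, hxy⟩ := h U hUT hUne (by
    rintro e (he | ⟨S, hSS, rfl⟩) x hx
    · obtain ⟨δ, φ, hφ, he, hδ⟩ := corr_mem_correspondences he
      rw [← he]
      exact hUst _ φ hφ x hx
    · refine Submodule.iSup_induction N (motive := fun x => S.σ Z x ∈ U) hx ?_
        (by rw [map_zero]; exact Submodule.zero_mem _)
        (fun _ _ h1 h2 => by rw [map_add]; exact Submodule.add_mem _ h1 h2)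
      intro i x hx
      exact Submodule.mem_iSup_of_mem i (hinv S hSS i x hx))
  obtain ⟨p, hp⟩ := Set.mem_iUnion.1 hθ
  obtain ⟨δ, θ₁, hθ₁, he, -⟩ := corr_mem_correspondences hp
  apply hxy
  change W.tr Z (x * θ y) = 0
  rw [← he]
  exact hUiso x hx _ (hUst _ θ₁ hθ₁ y hy)

/-- The images of dominated varieties generate. -/
lemma generated_of_dominates {𝒵 : Set 𝒱.Obj} (hZ : Z ∈ 𝒵) (h : Dominates W Z V) :
    GeneratedBelow W 𝒵 V := by
  obtain ⟨g, p, w, c, hw, hc, hpush⟩ := h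
  intro i _ x _
  apply Submodule.subset_span
  have h1 : (Z.prod V).IsCyc V.dim (ops.push (Obj.lift (𝟙 Z) g) Z.V.fundCycle) :=
    ops.push_mem _ Z.V.fundCycle_mem (by rw [dim_prod]; omega)
  have h2 : ∀ a, W.corr (W.cl _ (ops.push (Obj.lift (𝟙 Z) g) Z.V.fundCycle)) a = W.push g a := by
    intro a
    have e1 : Obj.lift (𝟙 Z) g ≫ fst Z V = 𝟙 Z := Obj.lift_fst _ _
    have e2 : Obj.lift (𝟙 Z) g ≫ snd Z V = g := Obj.lift_snd _ _
    rw [corr_apply, W.cl_push, W.cl_fund, ← W.push_mul, ← W.push_comp, ← W.map_comp, e1, e2,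
      W.map_id, one_mul]
  refine ⟨Z, hZ, V.dim, _, h1, c⁻¹ • (W.cl Z w * W.map g x), ?_⟩
  rw [h2, map_smul, W.push_mul, hpush, smul_mul_assoc, one_mul, smul_smul,
    inv_mul_cancel₀ hc, one_smul]

end Pool.Agent.U190.GS
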