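import Pool.Agent.TH133.PW.Defs
import Pool.Agent.R908.AnisoDefs

/-!
# Isotropic subspaces stable under correspondences and symmetries: definitions
-/

set_option autoImplicit false

open CategoryTheory AlgebraicGeometry

universe u v

namespace Pool.Agent.U190.GS

open Pool.Agent.H914 Pool.Agent.H914.VarClass Pool.Agent.H914.VarClass.Obj
  Pool.Agent.H914.WeilCohomology Pool.Agent.TH133.PW Pool.Agent.R908

variable {k : Type u} [Field k] {𝒱 : VarClass k} {ops : CycleOps 𝒱}
  {W : WeilCohomology.{u, v} ops}

/-- The subspaces `N i` are stable under the symmetries in `𝒢`. -/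
def IsInvariant (𝒢 : Set (Symmetry W)) (X : 𝒱.Obj) (N : ℕ → Submodule W.K (W.H X)) : Prop :=
  ∀ S ∈ 𝒢, ∀ i, ∀ x ∈ N i, S.σ X x ∈ N i

/-- For every graded subspace `N` of `H(X)` which is stable under all algebraic correspondences and
the symmetries in `𝒢`, and on which the cup product pairing vanishes, the dimension of `N^(n + c)`
is at most that of `N^(n - c)`, for all `c ≤ n = dim X`. -/
def InvariantInequality (𝒢 : Set (Symmetry W)) (X : 𝒱.Obj) : Prop :=
  ∀ N, IsStable W X N → IsInvariant 𝒢 X N → IsIsotropicFor (W.tr X) N → UpperAtMostLower X.dim N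

/-- The only graded subspace of `H(Z)` which is stable under all algebraic correspondences and the
symmetries in `𝒢`, and on which the cup product pairing vanishes, is zero. -/
def NoIsotropic (𝒢 : Set (Symmetry W)) (Z : 𝒱.Obj) : Prop :=
  ∀ N, IsStable W Z N → IsInvariant 𝒢 Z N → IsIsotropicFor (W.tr Z) N → ∀ i, N i = ⊥

/-- The cohomology of `V` in the degrees smaller than `dim V` is spanned by the images of algebraic
correspondences from varieties in the set `𝒵` to `V`. -/
def GeneratedBelow (W : WeilCohomology.{u, v} ops) (𝒵 : Set 𝒱.Obj) (V : 𝒱.Obj) : Prop :=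
  ∀ i < V.dim, W.gr V i ≤ Submodule.span W.K {x | ∃ Z ∈ 𝒵, ∃ (p : ℕ) (z : (Z.prod V).Cycles),
    (Z.prod V).IsCyc p z ∧ ∃ a : W.H Z, W.corr (W.cl _ z) a = x}

end Pool.Agent.U190.GS
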