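import Pool.Agent.U190.GS.Lin
import Pool.Agent.U190.GS.Defs
import Pool.Agent.N180.CfI
import Pool.Agent.TH133.PW.Orb
import Pool.Agent.H447R3.NumB

/-!
# The conjecture B and isotropic subspaces stable under correspondences and symmetries
-/

set_option autoImplicit false

open CategoryTheory AlgebraicGeometry

universe u v

namespace Pool.Agent.U190.GS

open Pool.Agent.H914 Pool.Agent.H914.VarClass Pool.Agent.H914.VarClass.Obj
  Pool.Agent.H914.WeilCohomology Pool.Agent.TH133.PW Pool.Agent.R908 Pool.Agent.N180.Cf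

variable {k : Type u} [Field k] {𝒱 : VarClass k} {ops : CycleOps 𝒱}
  {W : WeilCohomology.{u, v} ops} {X Y : 𝒱.Obj}

/-- The algebra generated by the algebraic correspondences. -/
noncomputable def corrAlg (W : WeilCohomology.{u, v} ops) (X : 𝒱.Obj) :
    Subalgebra W.K (Module.End W.K (W.H X)) where
  carrier := (⨆ d, KOp W X X d : Submodule W.K (Module.End W.K (W.H X)))
  mul_mem' := by
    intro a b ha hb
    refine Submodule.iSup_induction (KOp W X X)
      (motive := fun a => a * b ∈ (⨆ d, KOp W X X d : Submodule W.K (Module.End W.K (W.H X))))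
      ha (fun i x hx => ?_) (by rw [zero_mul]; exact Submodule.zero_mem _)
      (fun x y hx hy => by rw [add_mul]; exact Submodule.add_mem _ hx hy)
    refine Submodule.iSup_induction (KOp W X X)
      (motive := fun b => x * b ∈ (⨆ d, KOp W X X d : Submodule W.K (Module.End W.K (W.H X))))
      hb (fun j y hy => ?_) (by rw [mul_zero]; exact Submodule.zero_mem _)
      (fun y z hy hz => by rw [mul_add]; exact Submodule.add_mem _ hy hz)
    exact Submodule.mem_iSup_of_mem (j + i) (KOp.comp hx hy)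
  one_mem' := Submodule.mem_iSup_of_mem 0 (KOp.id X)
  add_mem' := fun ha hb => Submodule.add_mem _ ha hb
  zero_mem' := Submodule.zero_mem _
  algebraMap_mem' := fun r => by
    rw [Algebra.algebraMap_eq_smul_one]
    exact Submodule.smul_mem _ _ (Submodule.mem_iSup_of_mem 0 (KOp.id X))

lemma kop_mem {d : ℤ} {φ : Module.End W.K (W.H X)} (hφ : φ ∈ KOp W X X d) : φ ∈ corrAlg W X :=
  Submodule.mem_iSup_of_mem (p := KOp W X X) d hφ

lemma corrAlg_ind {P : Module.End W.K (W.H X) → Prop} {x : Module.End W.K (W.H X)}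
    (hx : x ∈ corrAlg W X) (h1 : ∀ d, ∀ y ∈ KOp W X X d, P y) (h0 : P 0)
    (h2 : ∀ y z, P y → P z → P (y + z)) : P x :=
  Submodule.iSup_induction (KOp W X X) (motive := P) hx h1 h0 h2

/-- The cup product form. -/
noncomputable def cup (W : WeilCohomology.{u, v} ops) (X : 𝒱.Obj) :
    W.H X →ₗ[W.K] W.H X →ₗ[W.K] W.K := (LinearMap.mul W.K (W.H X)).compr₂ (W.tr X)

lemma cup_apply (x y : W.H X) : cup W X x y = W.tr X (x * y) := rfl

lemma eq_sum_proj (x : W.H X) :
    x = ∑ i ∈ Finset.range (2 * X.dim + 1), proj (W.isInternal X) i x := by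
  have h3 := sum_proj (W.isInternal X) (N := 2 * X.dim + 1)
    (fun i hi => W.gr_eq_bot X i (by omega))
  have h4 := congrArg (fun F : Module.End W.K (W.H X) => F x) h3
  beta_reduce at h4
  rw [LinearMap.sum_apply, Module.End.one_apply] at h4
  exact h4.symm

/-- The conjugate of an algebraic correspondence by a symmetry is algebraic. -/
lemma sym_kop (S : Symmetry W) {d : ℤ} {φ : W.H X →ₗ[W.K] W.H Y} (hφ : φ ∈ KOp W X Y d) :
    ∃ ψ ∈ KOp W X Y d, ∀ x, S.σ Y (φ x) = ψ (S.σ X x) := by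
  obtain ⟨γ, hγ, rfl⟩ := mem_KOp_iff.1 hφ
  refine ⟨(S.c Y / S.c (X.prod Y)) • W.corr (S.σ (X.prod Y) γ),
    Submodule.smul_mem _ _ (mem_KOp_iff.2 ⟨_, S.span hγ, rfl⟩), fun x => ?_⟩
  rw [← sub_eq_zero]
  apply W.nondeg
  intro b
  obtain ⟨b, rfl⟩ := (S.σ Y).surjective b
  rw [sub_mul, map_sub, ← map_mul, S.tr, LinearMap.smul_apply, smul_mul_assoc, map_smul,
    corr_apply, corr_apply, W.tr_push, W.tr_push, ← S.fst, ← S.snd, ← map_mul, ← map_mul, S.tr,
    smul_eq_mul, ← mul_assoc, div_mul_cancel₀ _ (S.c_ne_zero _), sub_self]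

lemma exists_adj_both {φ : Module.End W.K (W.H X)} (hφ : φ ∈ corrAlg W X) :
    ∃ ψ ∈ corrAlg W X, (∀ x y, W.tr X (φ x * y) = W.tr X (x * ψ y)) ∧
      ∀ x y, W.tr X (ψ x * y) = W.tr X (x * φ y) := by
  refine corrAlg_ind (P := fun φ => ∃ ψ ∈ corrAlg W X,
    (∀ x y, W.tr X (φ x * y) = W.tr X (x * ψ y)) ∧
      ∀ x y, W.tr X (ψ x * y) = W.tr X (x * φ y)) hφ ?_ ?_ ?_
  · intro d φ hφ
    induction hφ using Submodule.span_induction with
    | mem x hx =>
      obtain ⟨p, hp, z, hz, rfl⟩ := hx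
      refine ⟨W.corr (W.cl _ (ops.pull (swap X X) z)), kop_mem (KOp.gen (p := p) hp
        (ops.pull_mem _ hz)), fun a b => ?_, fun a b => ?_⟩
      · rw [W.cl_pull]
        exact tr_corr_swap (W.cl_mem hz) a b
      · have h1 := tr_corr_swap (W.cl_mem (ops.pull_mem (swap X X) hz)) a b
        rw [h1, W.cl_pull, Pool.Agent.H447.map_swap_swap]
    | zero => exact ⟨0, Subalgebra.zero_mem _, fun a b => by simp, fun a b => by simp⟩
    | add x y _ _ hx hy =>
      obtain ⟨ψ, hψ, h1, h1'⟩ := hx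
      obtain ⟨ψ', hψ', h2, h2'⟩ := hy
      exact ⟨ψ + ψ', Subalgebra.add_mem _ hψ hψ', fun a b => by
        rw [LinearMap.add_apply, LinearMap.add_apply, add_mul, mul_add, map_add, map_add, h1, h2],
        fun a b => by
        rw [LinearMap.add_apply, LinearMap.add_apply, add_mul, mul_add, map_add, map_add, h1', h2']⟩
    | smul c x _ hx =>
      obtain ⟨ψ, hψ, h1, h1'⟩ := hx
      exact ⟨c • ψ, Subalgebra.smul_mem _ hψ _, fun a b => by
        rw [LinearMap.smul_apply, LinearMap.smul_apply, smul_mul_assoc, mul_smul_comm, map_smul,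
          map_smul, h1], fun a b => by
        rw [LinearMap.smul_apply, LinearMap.smul_apply, smul_mul_assoc, mul_smul_comm, map_smul,
          map_smul, h1']⟩
  · exact ⟨0, Subalgebra.zero_mem _, fun a b => by simp, fun a b => by simp⟩
  · rintro x y ⟨ψ, hψ, h1, h1'⟩ ⟨ψ', hψ', h2, h2'⟩
    exact ⟨ψ + ψ', Subalgebra.add_mem _ hψ hψ', fun a b => by
        rw [LinearMap.add_apply, LinearMap.add_apply, add_mul, mul_add, map_add, map_add, h1, h2],
        fun a b => by
        rw [LinearMap.add_apply, LinearMap.add_apply, add_mul, mul_add, map_add, map_add, h1', h2']⟩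

/-- The operators of the symmetries and their inverses on `H(X)`. -/
def symSet (𝒢 : Set (Symmetry W)) (X : 𝒱.Obj) : Set (W.H X ≃+ W.H X) :=
  {σ | ∃ S : Symmetry W, (S ∈ 𝒢 ∨ S = gSym W (two_ne_zero (α := W.K))) ∧
    (σ = (S.σ X).toAddEquiv ∨ σ = (S.σ X).toAddEquiv.symm)}

lemma symSet_sym {𝒢 : Set (Symmetry W)} {σ : W.H X ≃+ W.H X} (h : σ ∈ symSet 𝒢 X) :
    ∃ T : Symmetry W, ∀ x, σ x = T.σ X x := by
  obtain ⟨S, -, rfl | rfl⟩ := h
  · exact ⟨S, fun x => rfl⟩
  · exact ⟨S.inv, fun x => rfl⟩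

/-- The operator of the cup product with the divisor, as an element of the algebra. -/
noncomputable def lefOp (W : WeilCohomology.{u, v} ops) {X : 𝒱.Obj} {D : X.Cycles}
    (hD : X.IsCyc 1 D) : corrAlg W X :=
  ⟨LinearMap.mulLeft W.K (W.cl X D), kop_mem (by
    have := pow_cl_mem (W := W) hD 1
    rwa [pow_one] at this)⟩

theorem setting (𝒢 : Set (Symmetry W)) {D : X.Cycles} (hD : X.IsCyc 1 D)
    (hHL : HardLefschetz W X D) :
    Setting (corrAlg W X) (cup W X) (proj (W.isInternal X)) (symSet 𝒢 X) X.dim (lefOp W hD) where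
  nd := fun y h => nondeg_right fun x => h x
  adj := fun a => by
    obtain ⟨ψ, hψ, h1, h2⟩ := exists_adj_both a.2
    exact ⟨⟨ψ, hψ⟩, h1, h2⟩
  idem := fun j x => by
    rw [← Module.End.mul_apply, proj_mul_proj]
  flip := fun U V hU hV h w hw u hu => by
    rw [cup_apply, eq_sum_proj w, Finset.sum_mul, map_sum]
    refine Finset.sum_eq_zero fun i _ => ?_
    rw [eq_sum_proj u, Finset.mul_sum, map_sum]
    refine Finset.sum_eq_zero fun j _ => ?_
    rw [W.comm (proj_mem _ i w) (proj_mem _ j u), map_smul]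
    have := h _ (hU j u hu) _ (hV i w hw)
    rw [cup_apply] at this
    rw [this, smul_zero]
  conj := fun σ hσ a => by
    obtain ⟨T, hT⟩ := symSet_sym hσ
    have key : ∃ ψ ∈ corrAlg W X, ∀ x, T.σ X ((a : Module.End W.K (W.H X)) x) = ψ (T.σ X x) := by
      refine corrAlg_ind (P := fun φ => ∃ ψ ∈ corrAlg W X, ∀ x, T.σ X (φ x) = ψ (T.σ X x)) a.2
        ?_ ?_ ?_
      · intro d φ hφ
        obtain ⟨ψ, hψ, h⟩ := sym_kop T hφ
        exact ⟨ψ, kop_mem hψ, h⟩
      · exact ⟨0, Subalgebra.zero_mem _, fun x => by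
          rw [LinearMap.zero_apply, LinearMap.zero_apply, map_zero]⟩
      · rintro x y ⟨ψ, hψ, h1⟩ ⟨ψ', hψ', h2⟩
        exact ⟨ψ + ψ', Subalgebra.add_mem _ hψ hψ', fun z => by
          rw [LinearMap.add_apply, LinearMap.add_apply, map_add, h1, h2]⟩
    obtain ⟨ψ, hψ, h⟩ := key
    refine ⟨⟨ψ, hψ⟩, fun x => ?_⟩
    rw [hT, hT]
    exact h x
  inv := fun σ hσ => by
    obtain ⟨S, hS, rfl | rfl⟩ := hσ
    · exact ⟨S, hS, Or.inr rfl⟩
    · exact ⟨S, hS, Or.inl rfl⟩
  sim := fun σ hσ x y h => by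
    obtain ⟨T, hT⟩ := symSet_sym hσ
    rw [cup_apply] at h
    rw [cup_apply, hT, hT, ← map_mul, T.tr, h, mul_zero]
  gr := fun N hN j x hx => by
    refine proj_stable (U := N.restrictScalars W.K) ?_ j x hx
    intro x hx
    exact hN _ ⟨_, Or.inr rfl, Or.inl rfl⟩ x hx
  homL := fun c hc x => by
    have hξ : ∀ i, ∀ a ∈ W.gr X i,
        ((LinearMap.mulLeft W.K (W.cl X D)) ^ c) a ∈ W.gr X (i + 2 * c) := by
      intro i a ha
      rw [LinearMap.pow_mulLeft, LinearMap.mulLeft_apply, add_comm]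
      refine W.mul_mem ?_ ha
      have h1 : W.cl X D ∈ W.gr X (2 * 1) := W.cl_mem hD
      clear hc
      induction c with
      | zero => rw [pow_zero]; exact W.one_mem X
      | succ c ih =>
        rw [pow_succ]
        exact (by ring : 2 * c + 2 * 1 = 2 * (c + 1)) ▸ W.mul_mem ih h1
    refine gr_induction (W.isInternal X) (p := fun x => proj (W.isInternal X) (X.dim + c)
      (((LinearMap.mulLeft W.K (W.cl X D)) ^ c) x) = ((LinearMap.mulLeft W.K (W.cl X D)) ^ c)
        (proj (W.isInternal X) (X.dim - c) x)) ?_ ?_ x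
    · intro i a ha
      by_cases hi : i = X.dim - c
      · subst hi
        rw [proj_same _ ha, proj_same]
        have := hξ _ a ha
        rwa [show X.dim - c + 2 * c = X.dim + c by omega] at this
      · rw [proj_ne _ ha hi, map_zero, proj_ne _ (hξ i a ha) (by omega)]
    · intro a b ha hb
      rw [map_add, map_add, ha, hb, map_add, map_add]
  selfadj := fun x y => by
    change W.tr X (W.cl X D * x * y) = W.tr X (x * (W.cl X D * y))
    rw [W.even_comm (p := 1) (W.cl_mem hD) x, mul_assoc]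
  pair := fun c hc x z hx => by
    rw [cup_apply, cup_apply]
    refine gr_induction (W.isInternal X) (p := fun z => W.tr X (x * z) =
      W.tr X (x * proj (W.isInternal X) (X.dim + c) z)) ?_ ?_ z
    · intro i a ha
      by_cases hi : i = X.dim + c
      · subst hi
        rw [proj_same _ ha]
      · rw [proj_ne _ ha hi, mul_zero, map_zero]
        have : x ∈ W.gr X (X.dim - c) := by rw [← hx]; exact proj_mem _ _ _
        exact W.tr_eq_zero (W.mul_mem this ha) (by omega)
    · intro a b ha hb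
      rw [mul_add, map_add, ha, hb, map_add, mul_add, map_add]
  hl := fun c hc y _ hy => by
    have hy' : y ∈ W.gr X (X.dim + c) := by rw [← hy]; exact proj_mem _ _ _
    obtain ⟨x, hx, hxy⟩ := (hHL (X.dim - c) (by omega)).2 y (by
      rwa [show 2 * X.dim - (X.dim - c) = X.dim + c by omega])
    refine ⟨x, trivial, proj_same _ hx, ?_⟩
    rwa [show X.dim - (X.dim - c) = c by omega] at hxy

end Pool.Agent.U190.GS
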