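import Mathlib

/-!
# Hard Lefschetz on stable subspaces: it is enough to consider isotropic invariant ones
-/

set_option autoImplicit false
set_option linter.unusedSectionVars false

namespace Pool.Agent.U190.GS

open Module

section Ring

variable {A : Type*} [Ring A] [IsArtinianRing A]

lemma jac_mul_nil {a : A} (ha : a ∈ Ring.jacobson A) : IsNilpotent a := by
  obtain ⟨n, hn⟩ := (inferInstance : IsSemiprimaryRing A).isNilpotent
  refine ⟨n, ?_⟩
  have h2 : ∀ k : ℕ, a ^ k ∈ (Ring.jacobson A) ^ k := by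
    intro k
    induction k with
    | zero => rw [pow_zero, Submodule.pow_zero, Ideal.one_eq_top]; trivial
    | succ k ih => rw [pow_succ, Submodule.pow_succ]; exact Ideal.mul_mem_mul ih ha
  have h3 := h2 n
  rw [hn] at h3
  exact h3

lemma mem_jacobson_iff {a : A} : a ∈ Ring.jacobson A ↔ ∀ b : A, IsNilpotent (b * a) := by
  constructor
  · intro ha b
    exact jac_mul_nil (Ideal.mul_mem_left _ b ha)
  · intro h
    rw [← Ideal.jacobson_bot, Ideal.mem_jacobson_iff]
    intro y
    obtain ⟨u, hu⟩ := (h y).isUnit_one_add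
    refine ⟨(u⁻¹ : Aˣ), ?_⟩
    rw [Ideal.mem_bot]
    have : ((u⁻¹ : Aˣ) : A) * (1 + y * a) = 1 := by rw [← hu]; exact u.inv_mul
    rw [mul_add, mul_one] at this
    rw [mul_assoc]
    rw [← this]
    abel

/-- A module which is killed by the Jacobson radical is semisimple. -/
lemma semisimple_of_torsion {M : Type*} [AddCommGroup M] [Module A M]
    (h : ∀ j ∈ Ring.jacobson A, ∀ x : M, j • x = 0) : IsSemisimpleModule A M := by
  have h' : Module.IsTorsionBySet A M (Ring.jacobson A : Set A) := fun x j => h j.1 j.2 x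
  let _ := h'.module
  exact (h'.semilinearMap.isSemisimpleModule_iff_of_bijective Function.bijective_id).2
      inferInstance

/-- Complements in an interval of submodules with semisimple quotient. -/
lemma exists_rel_compl {M : Type*} [AddCommGroup M] [Module A M] {F' F N : Submodule A M}
    (h1 : F' ≤ F) (hJ : ∀ j ∈ Ring.jacobson A, ∀ x ∈ F, j • x ∈ F') (hN : N ≤ F) :
    ∃ C : Submodule A M, F' ≤ C ∧ C ≤ F ∧ F ≤ N ⊔ C ∧ (N ⊔ F') ⊓ C ≤ F' := by
  let q : F →ₗ[A] F ⧸ (F'.comap F.subtype) := Submodule.mkQ _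
  have hs : IsSemisimpleModule A (F ⧸ (F'.comap F.subtype)) := by
    apply semisimple_of_torsion
    intro j hj x
    obtain ⟨x, rfl⟩ := Submodule.mkQ_surjective _ x
    rw [← map_smul]
    rw [Submodule.mkQ_apply, Submodule.Quotient.mk_eq_zero]
    exact hJ j hj x x.2
  have hq : ∀ x : F, q x = 0 ↔ (x : M) ∈ F' := by
    intro x
    change Submodule.mkQ _ x = 0 ↔ _
    rw [Submodule.mkQ_apply, Submodule.Quotient.mk_eq_zero]
    rfl
  obtain ⟨C, hC⟩ := exists_isCompl ((N.comap F.subtype).map q)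
  refine ⟨(C.comap q).map F.subtype, ?_, ?_, ?_, ?_⟩
  · intro x hx
    refine ⟨⟨x, h1 hx⟩, ?_, rfl⟩
    change q _ ∈ C
    rw [(hq ⟨x, h1 hx⟩).2 hx]
    exact C.zero_mem
  · rintro _ ⟨x, -, rfl⟩
    exact x.2
  · intro x hx
    have h2 : q ⟨x, hx⟩ ∈ (N.comap F.subtype).map q ⊔ C := by
      rw [hC.sup_eq_top]; trivial
    obtain ⟨_, ⟨a, ha, rfl⟩, b, hb, hab⟩ := Submodule.mem_sup.1 h2
    have h3 : (x : M) = a + (x - a) := by abel
    rw [h3]
    refine Submodule.add_mem_sup ha ⟨⟨x, hx⟩ - a, ?_, rfl⟩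
    change q (⟨x, hx⟩ - a) ∈ C
    rw [map_sub, ← hab, add_sub_cancel_left]
    exact hb
  · rintro x ⟨hx1, ⟨y, hy, rfl⟩⟩
    obtain ⟨a, ha, f, hf, haf⟩ := Submodule.mem_sup.1 hx1
    have h4 : q y ∈ (N.comap F.subtype).map q := by
      have h5 : y = ⟨a, hN ha⟩ + ⟨f, h1 hf⟩ := Subtype.ext haf.symm
      rw [h5, map_add, (hq ⟨f, h1 hf⟩).2 hf, add_zero]
      exact ⟨⟨a, hN ha⟩, ha, rfl⟩
    have h6 : q y ∈ (N.comap F.subtype).map q ⊓ C := ⟨h4, hy⟩
    rw [hC.inf_eq_bot, Submodule.mem_bot, hq] at h6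
    exact h6

end Ring

section Main

variable {K : Type*} [Field K] {V : Type*} [AddCommGroup V] [Module K V] [Module.Finite K V]
  (A : Subalgebra K (End K V))

instance : IsArtinianRing A := IsArtinianRing.of_finite K A

/-- The operator `L` maps the part of degree `n - c` of `N` onto the part of degree `n + c`. -/
def HLon (π : ℕ → End K V) (n : ℕ) (L : End K V) (N : Set V) : Prop :=
  ∀ c ≤ n, ∀ y ∈ N, π (n + c) y = y → ∃ x ∈ N, π (n - c) x = x ∧ (L ^ c) x = y

/-- The subset is stable under the projectors. -/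
def Gr (π : ℕ → End K V) (N : Set V) : Prop := ∀ j, ∀ x ∈ N, π j x ∈ N

variable {A} {π : ℕ → End K V} {n : ℕ} {L : A}

/-- The step of the induction. -/
lemma step (hπ : ∀ j (x : V), π j (π j x) = π j x)
    (hL : ∀ c ≤ n, ∀ x : V, π (n + c) (((L : End K V) ^ c) x) = ((L : End K V) ^ c) (π (n - c) x))
    {F' F : Submodule A V} (h1 : F' ≤ F) (hF' : Gr π (F' : Set V))
    (hJ : ∀ j ∈ Ring.jacobson A, ∀ x ∈ F, j • x ∈ F') (hF : HLon π n L (F : Set V))
    (ih : ∀ N : Submodule A V, N ≤ F' → Gr π (N : Set V) → HLon π n L (N : Set V))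
    (N : Submodule A V) (hN : N ≤ F) (hg : Gr π (N : Set V)) : HLon π n L (N : Set V) := by
  intro c hc y hy hyc
  obtain ⟨C, hC1, hC2, hC3, hC4⟩ := exists_rel_compl h1 hJ hN
  obtain ⟨x, hx, hxc, hxy⟩ := hF c hc y (hN hy) hyc
  obtain ⟨a, ha, b, hb, hab⟩ := Submodule.mem_sup.1 (hC3 hx)
  have hact : ∀ v : V, ((L : End K V) ^ c) v = (L ^ c) • v := fun v => rfl
  have e1 : y - ((L : End K V) ^ c) a = ((L : End K V) ^ c) b := by
    rw [← hxy, ← hab, map_add, add_sub_cancel_left]
  have e2 : y - ((L : End K V) ^ c) a ∈ F' := by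
    apply hC4
    refine ⟨?_, ?_⟩
    · exact Submodule.mem_sup_left (N.sub_mem hy (by rw [hact]; exact N.smul_mem _ ha))
    · rw [e1, hact]; exact C.smul_mem _ hb
  set z := y - ((L : End K V) ^ c) (π (n - c) a) with hz
  have e3 : z = π (n + c) (y - ((L : End K V) ^ c) a) := by
    rw [map_sub, hyc, hL c hc]
  have e4 : z ∈ F' := by rw [e3]; exact hF' _ _ e2
  have e5 : z ∈ N := N.sub_mem hy (by rw [hact]; exact N.smul_mem _ (hg _ _ ha))
  obtain ⟨w, hw, hwc, hwz⟩ := ih (N ⊓ F') inf_le_right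
    (fun j v hv => ⟨hg j v hv.1, hF' j v hv.2⟩) c hc z ⟨e5, e4⟩ (by rw [e3, hπ])
  refine ⟨π (n - c) a + w, N.add_mem (hg _ _ ha) hw.1, by rw [map_add, hπ, hwc], ?_⟩
  rw [map_add, hwz, hz]
  abel

/-- The sets `U` and `W` are orthogonal. -/
def Orth (β : V →ₗ[K] V →ₗ[K] K) (U W : Set V) : Prop := ∀ u ∈ U, ∀ w ∈ W, β u w = 0

/-- The set `N` is stable under the maps in `G`. -/
def GStable (G : Set (V ≃+ V)) (N : Set V) : Prop := ∀ σ ∈ G, ∀ x ∈ N, σ x ∈ N

/-- The axioms: a graded algebra `A` of operators with adjoints for the form `β`, normalised by the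
similitudes in `G`, and a self-adjoint operator `L` in `A` with hard Lefschetz. -/
structure Setting (A : Subalgebra K (End K V)) (β : V →ₗ[K] V →ₗ[K] K) (π : ℕ → End K V)
    (G : Set (V ≃+ V)) (n : ℕ) (L : A) : Prop where
  nd : ∀ y, (∀ x, β x y = 0) → y = 0
  adj : ∀ a : A, ∃ a' : A, (∀ x y, β (a • x) y = β x (a' • y)) ∧
    ∀ x y, β (a' • x) y = β x (a • y)
  idem : ∀ j x, π j (π j x) = π j x
  flip : ∀ U W : Submodule A V, Gr π (U : Set V) → Gr π (W : Set V) →
    Orth β (U : Set V) W → Orth β (W : Set V) U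
  conj : ∀ σ ∈ G, ∀ a : A, ∃ a' : A, ∀ x, σ (a • x) = a' • σ x
  inv : ∀ σ ∈ G, σ.symm ∈ G
  sim : ∀ σ ∈ G, ∀ x y, β x y = 0 → β (σ x) (σ y) = 0
  gr : ∀ N : Submodule A V, GStable G (N : Set V) → Gr π (N : Set V)
  homL : ∀ c ≤ n, ∀ x : V, π (n + c) (((L : End K V) ^ c) x) = ((L : End K V) ^ c) (π (n - c) x)
  selfadj : ∀ x y, β ((L : End K V) x) y = β x ((L : End K V) y)
  pair : ∀ c ≤ n, ∀ x z, π (n - c) x = x → β x z = β x (π (n + c) z)
  hl : HLon π n L Set.univ

/-- The submodules `J ^ a N`. -/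
def JP (N : Submodule A V) : ℕ → Submodule A V
  | 0 => N
  | a + 1 => Ring.jacobson A • JP N a

lemma JP_comp (N : Submodule A V) (a b : ℕ) : JP (JP N a) b = JP N (a + b) := by
  induction b with
  | zero => rfl
  | succ b ih => change _ • JP (JP N a) b = _; rw [ih]; rfl

lemma JP_nil (N : Submodule A V) : ∃ m, JP N m = ⊥ := by
  obtain ⟨m, hm⟩ := (inferInstance : IsSemiprimaryRing A).isNilpotent
  refine ⟨m, ?_⟩
  have h : ∀ a, ∀ N : Submodule A V, JP N a ≤ (Ring.jacobson A) ^ a • N := by
    intro a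
    induction a with
    | zero =>
      intro N x hx
      rw [Submodule.pow_zero, Ideal.one_eq_top]
      have := Submodule.smul_mem_smul (I := (⊤ : Ideal A)) (N := N) (r := 1) (n := x) trivial hx
      rwa [one_smul] at this
    | succ a ih =>
      intro N
      rw [Submodule.pow_succ, Submodule.mul_smul]
      refine le_trans (le_of_eq ?_) (ih (Ring.jacobson A • N))
      have := JP_comp N 1 a
      rw [add_comm 1 a] at this
      exact this.symm
  rw [eq_bot_iff]
  refine (h m N).trans ?_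
  rw [hm]
  refine Submodule.smul_le.2 ?_
  rintro r hr x -
  rw [(Submodule.mem_bot A).1 hr, zero_smul]
  exact Submodule.zero_mem _

lemma JP_le (N : Submodule A V) (a : ℕ) : JP N a ≤ N := by
  induction a with
  | zero => exact le_rfl
  | succ a ih => exact (Submodule.smul_le.2 fun r _ x hx => Submodule.smul_mem _ r hx).trans ih

lemma JP_anti (N : Submodule A V) {a b : ℕ} (h : a ≤ b) : JP N b ≤ JP N a := by
  induction b, h using Nat.le_induction with
  | base => exact le_rfl
  | succ b _ ih => exact (Submodule.smul_le.2 fun r _ x hx => Submodule.smul_mem _ r hx).trans ih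

lemma JP_mono {N N' : Submodule A V} (h : N ≤ N') (a : ℕ) : JP N a ≤ JP N' a := by
  induction a with
  | zero => exact h
  | succ a ih => exact Submodule.smul_mono le_rfl ih

variable {β : V →ₗ[K] V →ₗ[K] K} {G : Set (V ≃+ V)}

namespace Setting

variable (S : Setting A β π G n L)
include S

lemma jac_adj {a a' : A} (ha : a ∈ Ring.jacobson A)
    (h : ∀ x y, β (a • x) y = β x (a' • y)) : a' ∈ Ring.jacobson A := by
  rw [mem_jacobson_iff]
  intro b
  obtain ⟨b', -, hb'⟩ := S.adj b
  have h1 : IsNilpotent (a * b') := by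
    obtain ⟨m, hm⟩ := mem_jacobson_iff.1 ha b'
    refine ⟨m + 1, ?_⟩
    have : ∀ m, (a * b') ^ (m + 1) = a * (b' * a) ^ m * b' := by
      intro m
      induction m with
      | zero => rw [zero_add, pow_one, pow_zero, mul_one]
      | succ m ih => rw [pow_succ, ih, pow_succ (b' * a)]; noncomm_ring
    rw [this, hm, mul_zero, zero_mul]
  obtain ⟨m, hm⟩ := h1
  refine ⟨m, ?_⟩
  have h2 : ∀ m x y, β ((a * b') ^ m • x) y = β x ((b * a') ^ m • y) := by
    intro m
    induction m with
    | zero => intro x y; rw [pow_zero, pow_zero, one_smul, one_smul]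
    | succ m ih =>
      intro x y
      rw [pow_succ', mul_smul, mul_smul, h, hb', ih, pow_succ (b * a'), mul_smul, mul_smul]
  apply Subtype.ext
  apply LinearMap.ext
  intro y
  apply S.nd
  intro x
  have := h2 m x y
  rw [hm, zero_smul, map_zero, LinearMap.zero_apply] at this
  exact this.symm

lemma jac_conj {σ : V ≃+ V} (hσ : σ ∈ G) {a a' : A} (ha : a ∈ Ring.jacobson A)
    (h : ∀ x, σ (a • x) = a' • σ x) : a' ∈ Ring.jacobson A := by
  rw [mem_jacobson_iff]
  intro b
  obtain ⟨b', hb'⟩ := S.conj _ (S.inv σ hσ) b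
  have hb : ∀ x, σ (b' • x) = b • σ x := by
    intro x
    have := hb' (σ x)
    rw [AddEquiv.symm_apply_apply] at this
    rw [← this, AddEquiv.apply_symm_apply]
  obtain ⟨m, hm⟩ := mem_jacobson_iff.1 ha b'
  refine ⟨m, ?_⟩
  have h2 : ∀ m x, σ ((b' * a) ^ m • x) = (b * a') ^ m • σ x := by
    intro m
    induction m with
    | zero => intro x; rw [pow_zero, pow_zero, one_smul, one_smul]
    | succ m ih =>
      intro x
      rw [pow_succ, pow_succ, mul_smul, ih, mul_smul, hb, h, ← mul_smul, ← mul_smul, mul_assoc]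
  apply Subtype.ext
  apply LinearMap.ext
  intro y
  have := h2 m (σ.symm y)
  rw [hm, zero_smul, map_zero, AddEquiv.apply_symm_apply] at this
  exact this.symm

/-- The orthogonal complement. -/
def orth (N : Submodule A V) : Submodule A V where
  carrier := {x | ∀ y ∈ N, β x y = 0}
  add_mem' := fun {x x'} hx hx' y hy => by
    rw [map_add, LinearMap.add_apply, hx y hy, hx' y hy, add_zero]
  zero_mem' := fun y _ => by rw [map_zero, LinearMap.zero_apply]
  smul_mem' := fun a x hx y hy => by
    obtain ⟨a', ha', -⟩ := S.adj a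
    rw [ha']
    exact hx _ (N.smul_mem _ hy)

lemma mem_orth {N : Submodule A V} {x : V} : x ∈ S.orth N ↔ ∀ y ∈ N, β x y = 0 := Iff.rfl

lemma orth_smul {U W : Submodule A V} (h : Orth β (U : Set V) (Ring.jacobson A • W : Submodule A V)) :
    Orth β ((Ring.jacobson A • U : Submodule A V) : Set V) W := by
  intro u hu w hw
  refine Submodule.smul_induction_on hu ?_ ?_
  · intro j hj x hx
    obtain ⟨j', hj', -⟩ := S.adj j
    rw [hj']
    exact h x hx _ (Submodule.smul_mem_smul (S.jac_adj hj hj') hw)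
  · intro x y hx hy
    rw [map_add, LinearMap.add_apply, hx, hy, add_zero]

lemma orth_JP {U W : Submodule A V} (a : ℕ) : ∀ b, Orth β (U : Set V) (JP W (a + b)) →
    Orth β (JP U a : Set V) (JP W b) := by
  induction a with
  | zero => intro b h; rwa [zero_add] at h
  | succ a ih =>
    intro b h
    apply S.orth_smul
    apply ih (b + 1)
    rwa [show a + (b + 1) = a + 1 + b by ring]

lemma smul_stable {N : Submodule A V} (hN : GStable G (N : Set V)) :
    GStable G ((Ring.jacobson A • N : Submodule A V) : Set V) := by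
  intro σ hσ x hx
  refine Submodule.smul_induction_on hx ?_ ?_
  · intro j hj x hx
    obtain ⟨j', hj'⟩ := S.conj σ hσ j
    rw [hj']
    exact Submodule.smul_mem_smul (S.jac_conj hσ hj hj') (hN σ hσ x hx)
  · intro x y hx hy
    rw [map_add]
    exact Submodule.add_mem _ hx hy

lemma JP_stable {N : Submodule A V} (hN : GStable G (N : Set V)) (a : ℕ) :
    GStable G (JP N a : Set V) := by
  induction a with
  | zero => exact hN
  | succ a ih => exact S.smul_stable ih

lemma orth_stable {N : Submodule A V} (hN : GStable G (N : Set V)) :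
    GStable G (S.orth N : Set V) := by
  intro σ hσ x hx y hy
  have h1 := S.sim σ hσ x (σ.symm y) (hx _ (hN _ (S.inv σ hσ) y hy))
  rwa [AddEquiv.apply_symm_apply] at h1

/-- Hard Lefschetz passes to the orthogonal complement. -/
lemma orth_hl {N : Submodule A V} (hN : Gr π (N : Set V)) (h : HLon π n L (N : Set V)) :
    HLon π n L (S.orth N : Set V) := by
  intro c hc y hy hyc
  obtain ⟨x, -, hx, hxy⟩ := S.hl c hc y trivial hyc
  refine ⟨x, ?_, hx, hxy⟩
  intro z hz
  obtain ⟨w, hw, -, hwz⟩ := h c hc (π (n + c) z) (hN _ z hz) (S.idem _ _)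
  have h1 : ∀ (c : ℕ) (x y : V), β (((L : End K V) ^ c) x) y = β x (((L : End K V) ^ c) y) := by
    intro c
    induction c with
    | zero => intro x y; rfl
    | succ c ih =>
      intro x y
      conv_lhs => rw [pow_succ, Module.End.mul_apply]
      rw [ih, S.selfadj, pow_succ', Module.End.mul_apply]
  rw [S.pair c hc x z hx, ← hwz, ← h1, hxy]
  exact hy w hw

/-- **It is enough to consider isotropic invariant submodules.** -/
theorem hl_all (H : ∀ N : Submodule A V, GStable G (N : Set V) → Orth β (N : Set V) N →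
    HLon π n L (N : Set V)) (N : Submodule A V) (hN : Gr π (N : Set V)) :
    HLon π n L (N : Set V) := by
  -- a maximal isotropic invariant submodule
  have hnoeth : IsNoetherian A V := isNoetherian_of_tower K inferInstance
  obtain ⟨N₀, ⟨hst, hiso⟩, hmax⟩ := (set_has_maximal_iff_noetherian.2 hnoeth)
    {N : Submodule A V | GStable G (N : Set V) ∧ Orth β (N : Set V) N} ⟨⊥, by
      refine ⟨fun σ _ x hx => ?_, fun u hu w _ => ?_⟩
      · rw [SetLike.mem_coe, Submodule.mem_bot] at hx ⊢
        rw [hx, map_zero]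
      · rw [SetLike.mem_coe, Submodule.mem_bot] at hu
        rw [hu, map_zero, LinearMap.zero_apply]⟩
  set P := S.orth N₀ with hP
  have hN₀P : N₀ ≤ P := fun x hx y hy => hiso x hx y hy
  have hPst := S.orth_stable hst
  have hJP : Ring.jacobson A • P ≤ N₀ := by
    obtain ⟨m₀, hm₀⟩ := JP_nil P
    have hex : ∃ m, JP P m ≤ N₀ := ⟨m₀, by rw [hm₀]; exact bot_le⟩
    classical
    set m := Nat.find hex with hm
    have hm1 : JP P m ≤ N₀ := Nat.find_spec hex
    by_cases h1 : m ≤ 1
    · exact (JP_anti P h1).trans hm1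
    exfalso
    obtain ⟨a, ha⟩ : ∃ a, m = a + 1 := ⟨m - 1, by omega⟩
    have hnot : ¬ JP P a ≤ N₀ := Nat.find_min hex (by omega)
    have hast : GStable G (JP P a : Set V) := S.JP_stable hPst a
    have hg : ∀ {U : Submodule A V}, GStable G (U : Set V) → Gr π (U : Set V) :=
      fun hU => S.gr _ hU
    have hPN : Orth β (P : Set V) N₀ := fun x hx y hy => hx y hy
    have hNP : Orth β (N₀ : Set V) P := S.flip _ _ (hg hPst) (hg hst) hPN
    have haa : Orth β (JP P a : Set V) (JP P a) := by
      apply S.orth_JP a a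
      intro x hx y hy
      exact hPN x hx y (hm1 (JP_anti P (by omega) hy))
    have haP : JP P a ≤ P := JP_le P a
    have hnew : N₀ ⊔ JP P a ∈ {N : Submodule A V | GStable G (N : Set V) ∧
        Orth β (N : Set V) N} := by
      refine ⟨?_, ?_⟩
      · intro σ hσ x hx
        obtain ⟨y, hy, z, hz, rfl⟩ := Submodule.mem_sup.1 hx
        rw [map_add]
        exact Submodule.add_mem_sup (hst σ hσ y hy) (hast σ hσ z hz)
      · intro u hu w hw
        obtain ⟨y, hy, z, hz, rfl⟩ := Submodule.mem_sup.1 hu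
        obtain ⟨y', hy', z', hz', rfl⟩ := Submodule.mem_sup.1 hw
        simp only [map_add, LinearMap.add_apply, hiso y hy y' hy',
          hNP y hy z' (haP hz'), hPN z (haP hz) y' hy', haa z hz z' hz', add_zero]
    apply hmax _ hnew
    refine lt_of_le_of_ne le_sup_left ?_
    intro h
    apply hnot
    rw [h]
    exact le_sup_right
  have hgr : ∀ {U : Submodule A V}, GStable G (U : Set V) → Gr π (U : Set V) :=
    fun hU => S.gr _ hU
  have hiso' : ∀ a, Orth β (JP N₀ a : Set V) (JP N₀ a) := fun a x hx y hy =>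
    hiso x (JP_le _ _ hx) y (JP_le _ _ hy)
  obtain ⟨m, hm⟩ := JP_nil N₀
  -- the lower half of the chain
  have low : ∀ a, ∀ N : Submodule A V, N ≤ JP N₀ (m - a) → Gr π (N : Set V) →
      HLon π n L (N : Set V) := by
    intro a
    induction a with
    | zero =>
      intro N hN hg c hc y hy hyc
      rw [Nat.sub_zero, hm, le_bot_iff] at hN
      subst hN
      refine ⟨0, Submodule.zero_mem _, map_zero _, ?_⟩
      rw [SetLike.mem_coe, Submodule.mem_bot] at hy
      rw [map_zero, hy]
    | succ a ih =>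
      by_cases ham : a < m
      · have e1 : m - a = (m - (a + 1)) + 1 := by omega
        exact step S.idem S.homL (JP_anti N₀ (by omega) : JP N₀ (m - a) ≤ JP N₀ (m - (a + 1)))
          (hgr (S.JP_stable hst _)) (by
            intro j hj x hx
            rw [e1]
            exact Submodule.smul_mem_smul hj hx)
          (H _ (S.JP_stable hst _) (hiso' _)) ih
      · rw [show m - (a + 1) = m - a by omega]
        exact ih
  have up : ∀ a, ∀ N : Submodule A V, N ≤ S.orth (JP N₀ a) → Gr π (N : Set V) →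
      HLon π n L (N : Set V) := by
    intro a
    have hhl : ∀ a, HLon π n L (S.orth (JP N₀ a) : Set V) := fun a =>
      S.orth_hl (hgr (S.JP_stable hst _)) (H _ (S.JP_stable hst _) (hiso' _))
    induction a with
    | zero =>
      refine step S.idem S.homL hN₀P (hgr hst) ?_ (hhl 0) ?_
      · intro j hj x hx
        exact hJP (Submodule.smul_mem_smul hj hx)
      · have := low m
        rwa [Nat.sub_self] at this
    | succ a ih =>
      refine step S.idem S.homL ?_ (hgr (S.orth_stable (S.JP_stable hst a))) ?_ (hhl _) ih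
      · intro x hx y hy
        exact hx y (JP_anti N₀ (Nat.le_succ a) hy)
      · intro j hj x hx y hy
        obtain ⟨j', hj', -⟩ := S.adj j
        rw [hj']
        exact hx _ (Submodule.smul_mem_smul (S.jac_adj hj hj') hy)
  refine up m N ?_ hN
  intro x _ y hy
  rw [hm, Submodule.mem_bot] at hy
  rw [hy, map_zero]

end Setting

end Main

end Pool.Agent.U190.GS
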